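import Pool.Agent.H72.EQQ.Targets2
import Pool.Agent.H82.EQ.VFN
import Pool.Agent.H2.EQ.NLS

/-!
# The row TLT: the volume outside of a cone
-/

set_option autoImplicit false

open MeasureTheory Set

namespace Pool.Agent.H82.EQQ

open Pool.Agent.H71.EQ
open Pool.Agent.H82.EQ (PR_eq_pz V vs pz hz pz_nonneg)

/-- TLT -/
theorem pf_TLT : Pool.Agent.H72.EQQ.T_TLT := by
  intro k hk
  have hk0 : (2 : ℝ) ≤ k := by exact_mod_cast hk
  obtain ⟨hV, -, hs, C, hC, hC2⟩ := vs k hk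
  obtain ⟨a, ha⟩ : ∃ a : ℝ, a = (k : ℝ) / (k + 1) := ⟨_, rfl⟩
  have ha0 : 0 < a := by rw [ha]; positivity
  obtain ⟨r, hr⟩ : ∃ r : ℝ, r = (1 / 2 : ℝ) ^ a := ⟨_, rfl⟩
  have hr0 : 0 < r := by rw [hr]; positivity
  have hr1 : r < 1 := by
    rw [hr]
    exact Real.rpow_lt_one (by norm_num) (by norm_num) ha0
  refine ⟨2 * V k + 2 * (C / (1 - r)), by
    have : 0 < 1 - r := by linarith
    positivity, fun T hT => ?_⟩
  have hT0 : 0 < T := by linarith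
  have h1r : 0 < 1 - r := by linarith
  have hTp : 0 < T ^ (-(1 / 2) : ℝ) := Real.rpow_pos_of_pos hT0 _
  rcases lt_or_ge T 2 with hT2 | hT2
  · have h1 : volume {z : Fin k → ℝ | pz z ≤ 1 ∧ T * pz z ^ nu k < hz z} ≤
        volume {z : Fin k → ℝ | pz z ≤ 1} := measure_mono fun z hz => hz.1
    have h2 := hs 1 one_pos
    rw [Real.one_rpow, mul_one] at h2
    rw [h2] at h1
    refine h1.trans (ENNReal.ofReal_le_ofReal ?_)
    have h3 : 1 ≤ 2 * T ^ (-(1 / 2) : ℝ) := by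
      have h4 : (2 : ℝ) ^ (-(1 / 2) : ℝ) ≤ T ^ (-(1 / 2) : ℝ) :=
        Real.rpow_le_rpow_of_nonpos hT0 hT2.le (by norm_num)
      have h5 : (2 : ℝ) ^ (-1 : ℝ) ≤ (2 : ℝ) ^ (-(1 / 2) : ℝ) :=
        Real.rpow_le_rpow_of_exponent_le (by norm_num) (by norm_num)
      rw [Real.rpow_neg_one] at h5
      linarith
    have h6 : 0 ≤ C / (1 - r) := by positivity
    nlinarith [mul_le_mul_of_nonneg_left h3 hV.le, mul_nonneg h6 hTp.le]
  obtain ⟨S, hS⟩ : ∃ S : ℕ → Set (Fin k → ℝ), S = fun j => {z : Fin k → ℝ |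
      pz z ≤ (1 / 2 : ℝ) ^ j ∧ T / 2 * ((1 / 2 : ℝ) ^ j) ^ (1 / ((k : ℝ) + 1)) < hz z} := ⟨_, rfl⟩
  have hsub : {z : Fin k → ℝ | pz z ≤ 1 ∧ T * pz z ^ nu k < hz z} ⊆
      {z : Fin k → ℝ | PR z = 0} ∪ ⋃ j, S j := by
    intro z hzz
    obtain ⟨h1, h2⟩ := hzz
    rcases (pz_nonneg z).eq_or_lt with h0 | h0
    · left
      show PR z = 0
      rw [PR_eq_pz, ← h0]
    · right
      obtain ⟨j, hj1, hj2⟩ := exists_nat_pow_near_of_lt_one h0 h1 (by norm_num : (0 : ℝ) < 1 / 2)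
        (by norm_num)
      rw [mem_iUnion]
      refine ⟨j, ?_⟩
      rw [hS]
      refine ⟨hj2, lt_of_le_of_lt ?_ h2⟩
      have e1 : ((1 / 2 : ℝ) ^ (j + 1)) ^ (1 / ((k : ℝ) + 1)) =
          ((1 / 2 : ℝ) ^ j) ^ (1 / ((k : ℝ) + 1)) * (1 / 2 : ℝ) ^ (1 / ((k : ℝ) + 1)) := by
        rw [pow_succ, Real.mul_rpow (by positivity) (by norm_num)]
      have e2 : (1 / 2 : ℝ) ≤ (1 / 2 : ℝ) ^ (1 / ((k : ℝ) + 1)) := by
        have h7 : 1 / ((k : ℝ) + 1) ≤ 1 := by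
          rw [div_le_one (by linarith)]
          linarith
        have := Real.rpow_le_rpow_of_exponent_ge (by norm_num : (0 : ℝ) < 1 / 2) (by norm_num) h7
        rwa [Real.rpow_one] at this
      have e3 : ((1 / 2 : ℝ) ^ (j + 1)) ^ (1 / ((k : ℝ) + 1)) ≤ pz z ^ nu k :=
        Real.rpow_le_rpow (by positivity) hj1.le (by positivity)
      have e4 : 0 ≤ ((1 / 2 : ℝ) ^ j) ^ (1 / ((k : ℝ) + 1)) := by positivity
      rw [e1] at e3
      have e5 : ((1 / 2 : ℝ) ^ j) ^ (1 / ((k : ℝ) + 1)) * (1 / 2) ≤ pz z ^ nu k :=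
        (mul_le_mul_of_nonneg_left e2 e4).trans e3
      calc T / 2 * ((1 / 2 : ℝ) ^ j) ^ (1 / ((k : ℝ) + 1)) =
          T * (((1 / 2 : ℝ) ^ j) ^ (1 / ((k : ℝ) + 1)) * (1 / 2)) := by ring
        _ ≤ T * pz z ^ nu k := mul_le_mul_of_nonneg_left e5 hT0.le
  obtain ⟨D, hD⟩ : ∃ D : ℝ, D = C * (T / 2) ^ (-(1 / 2) : ℝ) := ⟨_, rfl⟩
  have hD0 : 0 ≤ D := by rw [hD]; positivity
  have hSj : ∀ j, volume (S j) ≤ ENNReal.ofReal (D * r ^ j) := by
    intro j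
    have h1 := hC2 ((1 / 2 : ℝ) ^ j) (T / 2) (by positivity) (by linarith)
    rw [← ha, ← hD] at h1
    have e : ((1 / 2 : ℝ) ^ j) ^ a = r ^ j := by
      rw [hr, ← Real.rpow_natCast, ← Real.rpow_natCast, ← Real.rpow_mul (by norm_num),
        ← Real.rpow_mul (by norm_num), mul_comm]
    rw [e] at h1
    rw [hS]
    exact h1
  have hnul : volume {z : Fin k → ℝ | PR z = 0} = 0 :=
    (Pool.Agent.H2.EQ.pf_NUL k (by omega) 0).1
  calc volume {z : Fin k → ℝ | pz z ≤ 1 ∧ T * pz z ^ nu k < hz z}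
      ≤ volume ({z : Fin k → ℝ | PR z = 0} ∪ ⋃ j, S j) := measure_mono hsub
    _ ≤ volume {z : Fin k → ℝ | PR z = 0} + volume (⋃ j, S j) := measure_union_le _ _
    _ = volume (⋃ j, S j) := by rw [hnul, zero_add]
    _ ≤ ∑' j, volume (S j) := measure_iUnion_le _
    _ ≤ ∑' j, ENNReal.ofReal (D * r ^ j) := ENNReal.tsum_le_tsum hSj
    _ = ENNReal.ofReal (∑' j, D * r ^ j) := (ENNReal.ofReal_tsum_of_nonneg
        (fun j => by positivity) ((summable_geometric_of_lt_one hr0.le hr1).mul_left D)).symm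
    _ = ENNReal.ofReal (D / (1 - r)) := by
        rw [tsum_mul_left, tsum_geometric_of_lt_one hr0.le hr1, div_eq_mul_inv]
    _ ≤ ENNReal.ofReal ((2 * V k + 2 * (C / (1 - r))) * T ^ (-(1 / 2) : ℝ)) := by
        apply ENNReal.ofReal_le_ofReal
        have e1 : (T / 2) ^ (-(1 / 2) : ℝ) ≤ 2 * T ^ (-(1 / 2) : ℝ) := by
          rw [Real.div_rpow hT0.le (by norm_num), div_le_iff₀ (by positivity)]
          have h5 : (2 : ℝ) ^ (-1 : ℝ) ≤ (2 : ℝ) ^ (-(1 / 2) : ℝ) :=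
            Real.rpow_le_rpow_of_exponent_le (by norm_num) (by norm_num)
          rw [Real.rpow_neg_one] at h5
          nlinarith
        have e2 : D / (1 - r) ≤ 2 * (C / (1 - r)) * T ^ (-(1 / 2) : ℝ) := by
          rw [hD]
          calc C * (T / 2) ^ (-(1 / 2) : ℝ) / (1 - r) ≤
              C * (2 * T ^ (-(1 / 2) : ℝ)) / (1 - r) := by
                apply div_le_div_of_nonneg_right _ h1r.le
                exact mul_le_mul_of_nonneg_left e1 hC.le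
            _ = 2 * (C / (1 - r)) * T ^ (-(1 / 2) : ℝ) := by ring
        have e3 : 0 ≤ 2 * V k * T ^ (-(1 / 2) : ℝ) := by positivity
        linarith

end Pool.Agent.H82.EQQ
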