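import Pool.Agent.H72.EQQ.Targets
import Pool.Agent.H82.EQ.VFN

/-!
# The row WLY: the boundary layer of the region
-/

set_option autoImplicit false

open MeasureTheory Set

namespace Pool.Agent.H82.EQQ

open Pool.Agent.H71.EQ
open Pool.Agent.H82.EQ (PR_eq_pz continuous_extR continuous_PR V vs vol_flip flip flip_self flip_ne)

theorem extR_last {k : ℕ} (z : Fin k → ℝ) : extR z (Fin.last k) = -∑ i, z i := by
  unfold extR
  rw [Fin.snoc_last]

theorem extR_castSucc {k : ℕ} (z : Fin k → ℝ) (i : Fin k) : extR z i.castSucc = z i := by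
  unfold extR
  rw [Fin.snoc_castSucc]

/-- the difference of two products -/
theorem prod_sub {ι : Type*} (S : Finset ι) {a b : ι → ℝ} {L t : ℝ} (hL : 1 ≤ L) (ht : 0 ≤ t)
    (ha : ∀ i, |a i| ≤ L) (hb : ∀ i, |b i| ≤ L) (hab : ∀ i, |a i - b i| ≤ t) :
    |∏ i ∈ S, a i - ∏ i ∈ S, b i| ≤ S.card * L ^ S.card * t := by
  classical
  induction S using Finset.induction_on with
  | empty => simp
  | insert j S hj ih =>
    rw [Finset.prod_insert hj, Finset.prod_insert hj, Finset.card_insert_of_notMem hj]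
    have e : a j * ∏ i ∈ S, a i - b j * ∏ i ∈ S, b i =
        a j * (∏ i ∈ S, a i - ∏ i ∈ S, b i) + (a j - b j) * ∏ i ∈ S, b i := by ring
    have hP : |∏ i ∈ S, b i| ≤ L ^ S.card := by
      rw [Finset.abs_prod]
      refine (Finset.prod_le_prod (fun i _ => abs_nonneg _) fun i _ => hb i).trans ?_
      rw [Finset.prod_const]
    have hLn : 0 ≤ L ^ S.card := by positivity
    rw [e]
    refine (abs_add_le _ _).trans ?_
    rw [abs_mul, abs_mul]
    have h1 : |a j| * |∏ i ∈ S, a i - ∏ i ∈ S, b i| ≤ L * (S.card * L ^ S.card * t) :=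
      mul_le_mul (ha j) ih (abs_nonneg _) (by linarith)
    have h2 : |a j - b j| * |∏ i ∈ S, b i| ≤ t * L ^ S.card :=
      mul_le_mul (hab j) hP (abs_nonneg _) ht
    have h3 : t * L ^ S.card ≤ t * L ^ S.card * L := by
      have : 0 ≤ t * L ^ S.card := mul_nonneg ht hLn
      nlinarith
    push_cast
    calc _ ≤ L * (S.card * L ^ S.card * t) + t * L ^ S.card * L := by linarith
      _ = ((S.card : ℝ) + 1) * L ^ (S.card + 1) * t := by ring

theorem extR_sub {k : ℕ} {s : ℝ} (hk : 1 ≤ k) (hs : 0 ≤ s) {y z : Fin k → ℝ}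
    (h : ∀ i, |y i - z i| ≤ s) (i : Fin (k + 1)) : |extR y i - extR z i| ≤ k * s := by
  have hk0 : (1 : ℝ) ≤ k := by exact_mod_cast hk
  refine Fin.lastCases ?_ (fun j => ?_) i
  · rw [extR_last, extR_last, show -∑ i, y i - -∑ i, z i = -(∑ i, y i - ∑ i, z i) by ring, abs_neg,
      ← Finset.sum_sub_distrib]
    refine (Finset.abs_sum_le_sum_abs _ _).trans ?_
    refine (Finset.sum_le_card_nsmul _ _ s fun i _ => h i).trans ?_
    rw [Finset.card_univ, Fintype.card_fin, nsmul_eq_mul]
  · rw [extR_castSucc, extR_castSucc]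
    exact (h j).trans (by nlinarith)

/-- the volume of a band -/
theorem band {k : ℕ} (hk : 2 ≤ k) {c del : ℝ} (hd : 0 < del) :
    volume {z : Fin k → ℝ | |PR z - c| ≤ del} ≤
      ENNReal.ofReal (V k * (3 * del) ^ ((k : ℝ) / (k + 1))) := by
  obtain ⟨hV, -, hs, -⟩ := vs k hk
  have hs' : ∀ T : ℝ, 0 < T → volume {z : Fin k → ℝ | PR z ≤ T} =
      ENNReal.ofReal (V k * T ^ ((k : ℝ) / (k + 1))) := by
    intro T hT
    rw [← hs T hT]
    congr 1
    ext z
    show PR z ≤ T ↔ Pool.Agent.H82.EQ.pz z ≤ T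
    rw [PR_eq_pz]
  rcases le_or_gt c (2 * del) with hc | hc
  · rw [← hs' (3 * del) (by linarith)]
    apply measure_mono
    intro z hz
    have h0 : |PR z - c| ≤ del := hz
    have := (abs_le.1 h0).2
    show PR z ≤ 3 * del
    linarith
  · have hsub : {z : Fin k → ℝ | |PR z - c| ≤ del} ⊆
        {z : Fin k → ℝ | PR z ≤ c + del} \ {z : Fin k → ℝ | PR z ≤ c - 2 * del} := by
      intro z hz
      have h0 : |PR z - c| ≤ del := hz
      have h1 := abs_le.1 h0
      refine ⟨?_, ?_⟩
      · show PR z ≤ c + del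
        linarith [h1.2]
      · intro h2
        have h3 : PR z ≤ c - 2 * del := h2
        linarith [h1.1]
    refine (measure_mono hsub).trans ?_
    have hmeas : MeasurableSet {z : Fin k → ℝ | PR z ≤ c - 2 * del} :=
      measurableSet_le continuous_PR.measurable measurable_const
    have hfin : volume {z : Fin k → ℝ | PR z ≤ c - 2 * del} ≠ ⊤ := by
      rw [hs' _ (by linarith)]
      exact ENNReal.ofReal_ne_top
    rw [measure_sdiff (fun z hz => by
      have h3 : PR z ≤ c - 2 * del := hz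
      show PR z ≤ c + del
      linarith) hmeas.nullMeasurableSet hfin, hs' _ (by linarith), hs' _ (by linarith),
      ← ENNReal.ofReal_sub _ (by
        have : 0 ≤ (c - 2 * del) ^ ((k : ℝ) / (k + 1)) := Real.rpow_nonneg (by linarith) _
        positivity)]
    apply ENNReal.ofReal_le_ofReal
    have ha1 : (k : ℝ) / (k + 1) ≤ 1 := by
      rw [div_le_one (by positivity)]
      linarith
    have h4 := Real.rpow_add_le_add_rpow (p := (k : ℝ) / (k + 1)) (a := c - 2 * del)
      (b := 3 * del) (by linarith) (by linarith) (by positivity) ha1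
    rw [show c - 2 * del + 3 * del = c + del by ring] at h4
    nlinarith

/-- the volume of a slab in a box -/
theorem slab {k : ℕ} (b : Fin k) {L M t : ℝ} (hL : 0 ≤ L) (ht : 0 ≤ t) :
    volume {w : Fin k → ℝ | (∀ i, |w i| ≤ L) ∧ |(|w b|) - M| ≤ t} ≤
      ENNReal.ofReal (4 * t * (2 * L) ^ (k - 1)) := by
  have hbox : ∀ c : ℝ, volume (Icc (fun i : Fin k => if i = b then c - t else -L)
      (fun i : Fin k => if i = b then c + t else L)) = ENNReal.ofReal (2 * t * (2 * L) ^ (k - 1)) := by
    intro c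
    have e0 : ENNReal.ofReal (2 * t * (2 * L) ^ (k - 1)) =
        ENNReal.ofReal (2 * t) * ENNReal.ofReal (2 * L) ^ (k - 1) := by
      rw [ENNReal.ofReal_mul (p := 2 * t) (by linarith), ENNReal.ofReal_pow (by linarith)]
    rw [e0, Real.volume_Icc_pi, ← Finset.mul_prod_erase _ _ (Finset.mem_univ b), if_pos rfl,
      if_pos rfl, show c + t - (c - t) = 2 * t by ring]
    congr 1
    rw [Finset.prod_congr rfl (g := fun _ => ENNReal.ofReal (2 * L)) fun i hi => by
      rw [if_neg (Finset.ne_of_mem_erase hi), if_neg (Finset.ne_of_mem_erase hi)]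
      congr 1
      ring, Finset.prod_const, Finset.card_erase_of_mem (Finset.mem_univ b), Finset.card_univ,
      Fintype.card_fin]
  have hsub : {w : Fin k → ℝ | (∀ i, |w i| ≤ L) ∧ |(|w b|) - M| ≤ t} ⊆
      Icc (fun i : Fin k => if i = b then M - t else -L)
        (fun i : Fin k => if i = b then M + t else L) ∪
      Icc (fun i : Fin k => if i = b then -M - t else -L)
        (fun i : Fin k => if i = b then -M + t else L) := by
    intro w hw
    obtain ⟨h1, h2⟩ := hw
    have h3 := abs_le.1 h2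
    rcases le_total 0 (w b) with h4 | h4
    · left
      rw [abs_of_nonneg h4] at h3
      refine ⟨fun i => ?_, fun i => ?_⟩
      · by_cases hi : i = b
        · simp only [hi, if_true]
          linarith [h3.1]
        · simp only [if_neg hi]
          exact (abs_le.1 (h1 i)).1
      · by_cases hi : i = b
        · simp only [hi, if_true]
          linarith [h3.2]
        · simp only [if_neg hi]
          exact (abs_le.1 (h1 i)).2
    · right
      rw [abs_of_nonpos h4] at h3
      refine ⟨fun i => ?_, fun i => ?_⟩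
      · by_cases hi : i = b
        · simp only [hi, if_true]
          linarith [h3.2]
        · simp only [if_neg hi]
          exact (abs_le.1 (h1 i)).1
      · by_cases hi : i = b
        · simp only [hi, if_true]
          linarith [h3.1]
        · simp only [if_neg hi]
          exact (abs_le.1 (h1 i)).2
  refine (measure_mono hsub).trans ((measure_union_le _ _).trans ?_)
  rw [hbox M, hbox (-M), ← ENNReal.ofReal_add (by positivity) (by positivity)]
  apply ENNReal.ofReal_le_ofReal
  apply le_of_eq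
  ring

/-- the volume of a slab given by any of the `k + 1` entries -/
theorem slabR {k : ℕ} (hk : 1 ≤ k) (i : Fin (k + 1)) {L M t : ℝ} (hL : 0 ≤ L) (ht : 0 ≤ t) :
    volume {z : Fin k → ℝ | (∀ i, |extR z i| ≤ L) ∧ |(|extR z i|) - M| ≤ t} ≤
      ENNReal.ofReal (4 * t * (2 * L) ^ (k - 1)) := by
  revert i
  intro i
  refine Fin.lastCases ?_ (fun j => ?_) i
  · obtain ⟨b⟩ : Nonempty (Fin k) := ⟨⟨0, hk⟩⟩
    refine le_trans (measure_mono ?_) ((vol_flip b _).trans_le (slab b hL ht (M := M)))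
    intro z hz
    obtain ⟨h1, h2⟩ := hz
    show (∀ i, |flip b z i| ≤ L) ∧ |(|flip b z b|) - M| ≤ t
    refine ⟨fun i => ?_, ?_⟩
    · by_cases hi : i = b
      · rw [hi, flip_self, ← extR_last]
        exact h1 _
      · rw [flip_ne b z hi, ← extR_castSucc z i]
        exact h1 _
    · rw [flip_self, ← extR_last]
      exact h2
  · refine (measure_mono ?_).trans (slab j hL ht (M := M))
    intro z hz
    obtain ⟨h1, h2⟩ := hz
    refine ⟨fun i => ?_, ?_⟩
    · rw [← extR_castSucc z i]
      exact h1 _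
    · rw [← extR_castSucc z j]
      exact h2

theorem meas_Reg {k E : ℕ} {κ lam : ℝ} : MeasurableSet (Reg k E κ lam) := by
  have e : Reg k E κ lam = {z | κ < PR z} ∩ ({z | PR z ≤ 1} ∩
      ⋂ i, {z | |extR z i| ≤ lam * (E : ℝ) ^ (-nu k)}) := by
    ext z
    simp [Reg]
  rw [e]
  refine (measurableSet_lt measurable_const continuous_PR.measurable).inter
    ((measurableSet_le continuous_PR.measurable measurable_const).inter
      (MeasurableSet.iInter fun i => ?_))
  exact measurableSet_le (continuous_extR i).abs.measurable measurable_const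

theorem bdd_Reg {k E : ℕ} {κ lam : ℝ} (hl : 0 ≤ lam) : Bornology.IsBounded (Reg k E κ lam) := by
  refine (Metric.isBounded_closedBall (x := (0 : Fin k → ℝ))
    (r := lam * (E : ℝ) ^ (-nu k))).subset ?_
  intro z hz
  rw [mem_closedBall_zero_iff, pi_norm_le_iff_of_nonneg (by positivity)]
  intro i
  rw [← extR_castSucc z i, Real.norm_eq_abs]
  exact hz.2.2 _

/-- WLY -/
theorem pf_WLY : Pool.Agent.H72.EQQ.T_WLY := by
  intro k hk
  have hk1 : 1 ≤ k := by omega
  have hk0 : (2 : ℝ) ≤ k := by exact_mod_cast hk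
  obtain ⟨hV, hVt, hs, -⟩ := vs k hk
  obtain ⟨a, ha⟩ : ∃ a : ℝ, a = (k : ℝ) / (k + 1) := ⟨_, rfl⟩
  obtain ⟨D, hD⟩ : ∃ D : ℝ, D = ((k : ℝ) + 1) * ((k : ℝ) + 1) ^ (k + 1) * k := ⟨_, rfl⟩
  have hD0 : 0 < D := by rw [hD]; positivity
  have ha0 : 0 < a := by rw [ha]; positivity
  have ha2 : 1 / 2 ≤ a := by
    rw [ha, div_le_div_iff₀ (by norm_num) (by positivity)]
    linarith
  obtain ⟨C1, hC1⟩ : ∃ C1 : ℝ, C1 = V k * (3 * D) ^ a := ⟨_, rfl⟩
  have hC10 : 0 ≤ C1 := by rw [hC1]; positivity
  obtain ⟨C2, hC2⟩ : ∃ C2 : ℝ, C2 = 4 * k * (2 * ((k : ℝ) + 1)) ^ (k - 1) := ⟨_, rfl⟩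
  have hC20 : 0 ≤ C2 := by rw [hC2]; positivity
  refine ⟨V k + (C1 + C1 + ((k : ℝ) + 1) * C2), by positivity, ?_⟩
  intro E κ lam s hE hκ hκ1 hl hs0 hs1
  have hl0 : 0 < lam := by linarith
  refine ⟨meas_Reg, bdd_Reg hl0.le, ?_, ?_⟩
  · have h1 : volume (Reg k E κ lam) ≤ volume {z : Fin k → ℝ | PR z ≤ 1} :=
      measure_mono fun z hz => hz.2.1
    have h2 : volume {z : Fin k → ℝ | PR z ≤ 1} = ENNReal.ofReal (V k) := by
      have := hs 1 one_pos
      rw [Real.one_rpow, mul_one] at this
      rw [← this]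
      congr 1
      ext z
      show PR z ≤ 1 ↔ Pool.Agent.H82.EQ.pz z ≤ 1
      rw [PR_eq_pz]
    rw [h2] at h1
    have h3 := ENNReal.toReal_le_of_le_ofReal hV.le h1
    have : 0 ≤ C1 + C1 + ((k : ℝ) + 1) * C2 := by positivity
    linarith
  obtain ⟨M, hM⟩ : ∃ M : ℝ, M = lam * (E : ℝ) ^ (-nu k) := ⟨_, rfl⟩
  have hE1 : (1 : ℝ) ≤ E := by exact_mod_cast hE
  have hMl : M ≤ lam := by
    rw [hM]
    have : (E : ℝ) ^ (-nu k) ≤ 1 := by
      apply Real.rpow_le_one_of_one_le_of_nonpos hE1
      unfold nu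
      rw [neg_nonpos]
      positivity
    nlinarith
  obtain ⟨L, hL⟩ : ∃ L : ℝ, L = ((k : ℝ) + 1) * lam := ⟨_, rfl⟩
  have hL1 : 1 ≤ L := by rw [hL]; nlinarith
  obtain ⟨del, hdel⟩ : ∃ del : ℝ, del = D * lam ^ (k + 1) * s := ⟨_, rfl⟩
  have hdel0 : 0 < del := by rw [hdel]; positivity
  obtain ⟨W, hW⟩ : ∃ W : Set (Fin k → ℝ), W = ({z | |PR z - κ| ≤ del} ∪ {z | |PR z - 1| ≤ del}) ∪
      ⋃ i, {z | (∀ i, |extR z i| ≤ L) ∧ |(|extR z i|) - M| ≤ k * s} := ⟨_, rfl⟩
  have hmW : MeasurableSet W := by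
    rw [hW]
    refine MeasurableSet.union (MeasurableSet.union ?_ ?_) (MeasurableSet.iUnion fun i => ?_)
    · exact measurableSet_le (continuous_PR.sub continuous_const).abs.measurable measurable_const
    · exact measurableSet_le (continuous_PR.sub continuous_const).abs.measurable measurable_const
    · have e : {z : Fin k → ℝ | (∀ i, |extR z i| ≤ L) ∧ |(|extR z i|) - M| ≤ k * s} =
          (⋂ i, {z | |extR z i| ≤ L}) ∩ {z | |(|extR z i|) - M| ≤ k * s} := by
        ext z
        simp
      rw [e]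
      refine (MeasurableSet.iInter fun i => measurableSet_le (continuous_extR i).abs.measurable
        measurable_const).inter ?_
      exact measurableSet_le ((continuous_extR i).abs.sub continuous_const).abs.measurable
        measurable_const
  have hband : ∀ c : ℝ, volume {z : Fin k → ℝ | |PR z - c| ≤ del} ≤
      ENNReal.ofReal (C1 * lam ^ k * s ^ (1 / 2 : ℝ)) := by
    intro c
    refine (band hk hdel0).trans (ENNReal.ofReal_le_ofReal ?_)
    rw [← ha]
    have e1 : (3 * del) ^ a = (3 * D) ^ a * lam ^ k * s ^ a := by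
      rw [hdel, show 3 * (D * lam ^ (k + 1) * s) = 3 * D * lam ^ (k + 1) * s by ring,
        Real.mul_rpow (by positivity) hs0.le, Real.mul_rpow (by positivity) (by positivity)]
      congr 2
      rw [← Real.rpow_natCast lam (k + 1), ← Real.rpow_mul hl0.le, ← Real.rpow_natCast lam k]
      congr 1
      rw [ha]
      push_cast
      field_simp
    rw [e1, hC1]
    have e2 : s ^ a ≤ s ^ (1 / 2 : ℝ) := Real.rpow_le_rpow_of_exponent_ge hs0 hs1 ha2
    calc V k * ((3 * D) ^ a * lam ^ k * s ^ a) = V k * (3 * D) ^ a * lam ^ k * s ^ a := by ring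
      _ ≤ V k * (3 * D) ^ a * lam ^ k * s ^ (1 / 2 : ℝ) :=
        mul_le_mul_of_nonneg_left e2 (by positivity)
  have hslab : ∀ i : Fin (k + 1), volume {z : Fin k → ℝ | (∀ i, |extR z i| ≤ L) ∧
      |(|extR z i|) - M| ≤ k * s} ≤ ENNReal.ofReal (C2 * lam ^ k * s ^ (1 / 2 : ℝ)) := by
    intro i
    refine (slabR hk1 i (by linarith) (by positivity)).trans (ENNReal.ofReal_le_ofReal ?_)
    have e1 : (2 * L) ^ (k - 1) = (2 * ((k : ℝ) + 1)) ^ (k - 1) * lam ^ (k - 1) := by
      rw [hL, ← mul_pow]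
      congr 1
      ring
    have e2 : lam ^ (k - 1) ≤ lam ^ k := pow_le_pow_right₀ hl (by omega)
    have e3 : s ≤ s ^ (1 / 2 : ℝ) := by
      have := Real.rpow_le_rpow_of_exponent_ge hs0 hs1 (show (1 / 2 : ℝ) ≤ 1 by norm_num)
      rwa [Real.rpow_one] at this
    rw [e1, hC2]
    calc 4 * (k * s) * ((2 * ((k : ℝ) + 1)) ^ (k - 1) * lam ^ (k - 1)) =
        4 * k * (2 * ((k : ℝ) + 1)) ^ (k - 1) * (lam ^ (k - 1) * s) := by ring
      _ ≤ 4 * k * (2 * ((k : ℝ) + 1)) ^ (k - 1) * (lam ^ k * s ^ (1 / 2 : ℝ)) := by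
        apply mul_le_mul_of_nonneg_left _ (by positivity)
        exact mul_le_mul e2 e3 hs0.le (by positivity)
      _ = 4 * k * (2 * ((k : ℝ) + 1)) ^ (k - 1) * lam ^ k * s ^ (1 / 2 : ℝ) := by ring
  obtain ⟨T, hT⟩ : ∃ T : ℝ, T = lam ^ k * s ^ (1 / 2 : ℝ) := ⟨_, rfl⟩
  have hT0 : 0 ≤ T := by rw [hT]; positivity
  have hvW : volume W ≤ ENNReal.ofReal ((C1 + C1 + ((k : ℝ) + 1) * C2) * T) := by
    rw [hW]
    refine (measure_union_le _ _).trans ?_
    have h1 : volume ({z : Fin k → ℝ | |PR z - κ| ≤ del} ∪ {z | |PR z - 1| ≤ del}) ≤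
        ENNReal.ofReal (C1 * T) + ENNReal.ofReal (C1 * T) := by
      refine (measure_union_le _ _).trans (add_le_add ?_ ?_)
      · rw [hT, ← mul_assoc]
        exact hband κ
      · rw [hT, ← mul_assoc]
        exact hband 1
    have h2 : volume (⋃ i : Fin (k + 1), {z : Fin k → ℝ | (∀ i, |extR z i| ≤ L) ∧
        |(|extR z i|) - M| ≤ k * s}) ≤ ENNReal.ofReal (((k : ℝ) + 1) * (C2 * T)) := by
      refine (measure_iUnion_fintype_le _ _).trans ?_
      refine (Finset.sum_le_card_nsmul _ _ _ fun j _ => hslab j).trans ?_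
      rw [Finset.card_univ, Fintype.card_fin, nsmul_eq_mul]
      have hcard : ((k + 1 : ℕ) : ENNReal) = ENNReal.ofReal ((k : ℝ) + 1) := by
        rw [← ENNReal.ofReal_natCast]
        push_cast
        rfl
      rw [hcard, ← ENNReal.ofReal_mul (by positivity), hT, ← mul_assoc C2]
    refine (add_le_add h1 h2).trans ?_
    rw [← ENNReal.ofReal_add (by positivity) (by positivity),
      ← ENNReal.ofReal_add (by positivity) (by positivity)]
    apply ENNReal.ofReal_le_ofReal
    apply le_of_eq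
    ring
  refine ⟨W, hmW, ne_top_of_le_ne_top ENNReal.ofReal_ne_top hvW, ?_, ?_⟩
  · refine (ENNReal.toReal_le_of_le_ofReal (by positivity) hvW).trans ?_
    rw [show (V k + (C1 + C1 + ((k : ℝ) + 1) * C2)) * lam ^ k * s ^ (1 / 2 : ℝ) =
      (V k + (C1 + C1 + ((k : ℝ) + 1) * C2)) * T by rw [hT]; ring]
    apply mul_le_mul_of_nonneg_right _ hT0
    linarith
  · intro y z hyz hy hz
    have hR := fun i => extR_sub hk1 hs0.le hyz i
    have hyM : ∀ i, |extR y i| ≤ M := by
      rw [hM]
      exact hy.2.2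
    have hks : (k : ℝ) * s ≤ k := by nlinarith
    have hyL : ∀ i, |extR y i| ≤ L := fun i => by
      rw [hL]
      nlinarith [hyM i]
    have hzL : ∀ i, |extR z i| ≤ L := fun i => by
      have h1 : |extR z i| ≤ |extR y i| + |extR y i - extR z i| := by
        have := abs_sub_abs_le_abs_sub (extR z i) (extR y i)
        rw [abs_sub_comm] at this
        linarith
      rw [hL]
      nlinarith [hyM i, hR i]
    have hPR : |PR y - PR z| ≤ del := by
      have h1 := prod_sub Finset.univ (a := extR y) (b := extR z) (L := L) (t := k * s) hL1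
        (by positivity) hyL hzL hR
      rw [Finset.card_univ, Fintype.card_fin] at h1
      have h2 : |PR y - PR z| ≤ |∏ i, extR y i - ∏ i, extR z i| := by
        unfold PR
        exact abs_abs_sub_abs_le _ _
      refine h2.trans (h1.trans (le_of_eq ?_))
      rw [hdel, hD, hL, mul_pow]
      push_cast
      ring
    have hy1 := hy.1
    have hy2 := hy.2.1
    have h3 := abs_le.1 hPR
    rw [hW]
    by_cases hz1 : κ < PR z
    · by_cases hz2 : PR z ≤ 1
      · have hz3 : ∃ i, M < |extR z i| := by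
          by_contra hcon
          push Not at hcon
          apply hz
          refine ⟨hz1, hz2, ?_⟩
          rw [← hM]
          exact hcon
        obtain ⟨i, hi⟩ := hz3
        have h4 : |extR z i| - |extR y i| ≤ k * s := by
          have := abs_sub_abs_le_abs_sub (extR z i) (extR y i)
          rw [abs_sub_comm] at this
          linarith [hR i]
        have h5 := hyM i
        refine ⟨Or.inr (mem_iUnion.2 ⟨i, hyL, ?_⟩), Or.inr (mem_iUnion.2 ⟨i, hzL, ?_⟩)⟩
        · rw [abs_le]
          constructor <;> linarith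
        · rw [abs_le]
          constructor <;> linarith
      · push Not at hz2
        refine ⟨Or.inl (Or.inr ?_), Or.inl (Or.inr ?_)⟩
        · show |PR y - 1| ≤ del
          rw [abs_le]
          constructor <;> linarith [h3.1, h3.2]
        · show |PR z - 1| ≤ del
          rw [abs_le]
          constructor <;> linarith [h3.1, h3.2]
    · push Not at hz1
      refine ⟨Or.inl (Or.inl ?_), Or.inl (Or.inl ?_)⟩
      · show |PR y - κ| ≤ del
        rw [abs_le]
        constructor <;> linarith [h3.1, h3.2]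
      · show |PR z - κ| ≤ del
        rw [abs_le]
        constructor <;> linarith [h3.1, h3.2]

end Pool.Agent.H82.EQQ
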